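import Pool.Agent.helper43.CHS.PA
import Pool.Agent.helper28.CHS.MB
import Pool.Agent.helper25.CHS.BS
import Pool.Agent.helper99.CHS.EB
import Pool.Agent.helper94.CHS.CK
import Pool.Agent.helper94.CHS.ST
import Pool.Agent.helper39.CHS.TL
import Pool.Agent.helper77.CHS.OC
import Pool.Agent.helper98.CHS.SG
import Pool.Agent.helper92.CHS.SL
import Pool.Agent.helper8.CHS.VB
import Pool.Agent.helper37.CHS.CG
import Pool.Agent.helper13.CHS.CM
import Pool.Agent.helper95.CHS.MN
import Pool.Agent.helper27.CHS.SLV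
import Pool.Agent.helper45.SX.ABL
import Pool.Agent.helper45.SX.PCM
import Pool.Agent.helper52.SX.CHA
import Pool.Agent.helper13.SX.CH1
import Pool.Agent.helper43.SX.CH2
import Pool.Agent.helper72.SX.CH3
import Pool.Agent.helper31.SX.CH4
import Pool.Agent.helper16.SX.CH5
import Pool.Agent.helper13.SX.LPM
import Pool.Agent.helper24.SX.GOS

/-! # Project chs: part S of project CH, unconditional -/

set_option autoImplicit false

open Finset

namespace Pool.Agent.CHS

theorem all_LPM : Pool.Agent.SX.LPM_stmt := by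
  have h1 : Pool.Agent.SX.CH1_stmt := Pool.Agent.SX.CH1
  have h2 : Pool.Agent.SX.CH2_stmt := Pool.Agent.SX.CH2
  have hA : Pool.Agent.SX.CHA_stmt := Pool.Agent.SX.CHA
  have h3 : Pool.Agent.SX.CH3_stmt := Pool.Agent.SX.CH3 h2 hA
  have h4 : Pool.Agent.SX.CH4_stmt := Pool.Agent.SX.CH4 h1 h3
  have h5 : Pool.Agent.SX.CH5_stmt := Pool.Agent.SX.CH5 h1 h3 h4
  exact Pool.Agent.SX.LPM h2 h5

theorem all_PA : PA_stmt := PA
theorem all_MB : MB_stmt := MB all_PA
theorem all_BS : BS_stmt := BS all_PA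
theorem all_EB : EB_stmt := EB all_PA
theorem all_CK : CK_stmt := CK all_EB
theorem all_ST : ST_stmt := ST all_PA all_MB all_BS Pool.Agent.SX.GOS
theorem all_TL : TL_stmt := TL all_PA all_MB all_BS all_EB
theorem all_OC : OC_stmt := OC all_MB
theorem all_SG : SG_stmt := SG all_PA Pool.Agent.SX.ABL all_LPM
theorem all_SL : SL_stmt := SL all_PA
theorem all_VB : VB_stmt := VB all_PA all_SG all_SL
theorem all_CG : CG_stmt := CG all_SG Pool.Agent.SX.PCM
theorem all_CM : CM_stmt := CM all_PA
theorem all_MN : MN_stmt := MN all_PA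

/-- **Part S of project CH** -/
theorem all_SLV : Pool.Agent.CH.SLV_stmt :=
  SLV all_PA all_VB all_CM all_CG all_MN fun w0 hw0 j q hq =>
    (TBL all_PA all_MB all_EB all_CK all_ST all_TL all_OC all_SG all_CG w0 hw0 j).1 q hq

end Pool.Agent.CHS
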