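import Pool.Agent.helper27.CHS.Defs
import Pool.Agent.helper79.SX.Spec

/-!
# Project chs (MP_5628fe_nt, part S of project CH): the sieve of dimension 1

Final statement: `SLV_stmt` (weights `l1`, `l2` on the natural numbers, level `N ^ 0.992`). Page of the
whole project: /team-store/MP_5628fe_CH_page.md.

Method: the block sieve of the projects sx / sy (files Pool/Agent/*/SX, Pool/Agent/*/SY) for the density
`1 / (p - 1)`, written with real parameters. Small primes `7 ≤ p < exp x` (`x` a constant) are sieved by full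
inclusion and exclusion (MN). The certificate (files T0, T1: one octave with 20 blocks, a fixed point) is
complete and is not needed for the rows.

Rules: file `Pool/Agent/<seat>/CHS/XX.lean`: `import Pool.Agent.helper27.CHS.Spec`, `namespace Pool.Agent.CHS`,
`open Finset Pool.Agent.SX`, `theorem XX (h1 : AA_stmt) ... : XX_stmt` (the statements named after `From`
as hypotheses, in this order), auxiliary lemmas prefixed `XX_`. Statements of SX: write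
`Pool.Agent.SX.GOS_stmt` etc. Many proofs are adaptations of existing files, named in the docstrings: copy
and change them (do not import them).
-/

set_option autoImplicit false

open Finset

namespace Pool.Agent.CHS

open Pool.Agent.SX

/-! ## Part A: the block sieve -/

/-- **PA** (short). `log p < y` gives `p < exp y ≤ ⌈exp y⌉`. For `2 ≤ x` the primes of `PB x y` are `≥ 8`
(`exp 2 > 7`), so `0 ≤ 1 / (p - 1) ≤ 1 / 7`. See SAD_stmt (Pool/Agent/*/SX/SAD.lean). -/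
def PA_stmt : Prop :=
  (∀ (x y : ℝ) (p : ℕ), p ∈ PB x y ↔ p.Prime ∧ x ≤ Real.log p ∧ Real.log p < y) ∧
  (∀ x h h' : ℝ, x ≤ h → h ≤ h' → PB x h' = PB x h ∪ PB h h' ∧ Disjoint (PB x h) (PB h h') ∧
    V (PB x h') = V (PB x h) * V (PB h h') ∧ sig x h' = sig x h + sig h h') ∧
  (∀ x y : ℝ, 2 ≤ x → 0 < V (PB x y) ∧ V (PB x y) ≤ 1 ∧ 0 ≤ sig x y ∧
    ∀ p ∈ PB x y, 8 ≤ p ∧ 0 < 1 / ((p : ℝ) - 1) ∧ 1 / ((p : ℝ) - 1) ≤ 1 / 7) ∧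
  ∀ x : ℝ, PB x x = ∅

/-- **MB** (short). From PA. Monotone: the same `c`. `WLo x h B 1`: `c = 0`. `PB x x = ∅`, `V ∅ = 1`, `g ∅ = 1`:
`c E = 1` for `E = ∅` and `0` otherwise. See WMB (Pool/Agent/helper13/SY/WMB.lean). -/
def MB_stmt : Prop :=
  (∀ x h B B' v v' : ℝ, 2 ≤ x → B ≤ B' → v ≤ v' → WLo x h B v → WLo x h B' v') ∧
  (∀ x h B B' v v' : ℝ, 2 ≤ x → B ≤ B' → v ≤ v' → WUp x h B v → WUp x h B' v') ∧
  (∀ x h B : ℝ, WLo x h B 1) ∧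
  ∀ x B v : ℝ, 0 ≤ B → 0 ≤ v → WLo x x B v ∧ WUp x x B v

/-- **BS** (medium, long). From PA. One block: WSTP_stmt of project sy (Pool/Agent/helper97/SY/WSTP.lean) with `Pr h`,
`Bl h h'` replaced by `PB x h`, `PB h h'`, `2 / p` by `1 / (p - 1)`, and the level condition by `∑ log p ≤ B`.
`Q = PB h h'`, `PB x h' = PB x h ∪ Q` (disjoint). Choose the weights `c_k`, `k ≤ K`, from the hypothesis. For
`F ⊆ PB x h'` put `E = F ∩ PB x h`, `S = F ∩ Q`, `k = |S|` and `c' F = (-1) ^ k c_k E` if `k ≤ K`; `c' F = 0` if `k > K` or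
`¬ F ⊆ PB x h'`. Level: `log q < h'` for `q ∈ S`, so `∑_F log ≤ (B - k h') + k h' = B`. For `Γ ⊆ PB x h'`,
`Γ₀ = Γ ∩ PB x h`, `Γ₁ = Γ ∩ Q`: `∑_{F ⊆ Γ} c' F = ∑_{k ≤ K} (-1) ^ k C(|Γ₁|, k) ∑_{E ⊆ Γ₀} c_k E`. `K` odd: the inner
sum is `≤ [Γ₀ = ∅]` for even `k` and `≥ [Γ₀ = ∅]` for odd `k`, so the total is
`≤ [Γ₀ = ∅] ∑_{k ≤ K} (-1) ^ k C(|Γ₁|, k) ≤ [Γ₀ = ∅] [Γ₁ = ∅]` (first half of `Lib.BrunHooley.bonferroni Γ₁ (fun _ => 1)`).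
Main term: `∑ c' F g F = ∑_{k ≤ K} (-1) ^ k ek Q k M_k`, `M_k = ∑_{E ⊆ PB x h} c_k E g E`, `M_k ≥ V (1 - v k)` for even
`k`, `≤ V (1 + v k)` for odd `k`, so it is `≥ V (V Q - ek Q (K + 1) - ∑ ek Q k v k)` (second half of
`bonferroni Q (1 / (p - 1))`). `K` even: all inequalities reversed. No sign of `v` is needed. (`2 ≤ x`: PA gives
`0 ≤ 1 / (p - 1) ≤ 1`, `V > 0`.) -/
def BS_stmt : Prop := ∀ (x h h' B : ℝ) (K : ℕ) (v : ℕ → ℝ), 2 ≤ x → x ≤ h → h ≤ h' → K * h' ≤ B →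
  (Odd K → (∀ k ≤ K, (Even k → WLo x h (B - k * h') (v k)) ∧ (Odd k → WUp x h (B - k * h') (v k))) →
    WLo x h' B ((∑ k ∈ range (K + 1), ek (PB h h') k * v k + ek (PB h h') (K + 1)) / V (PB h h'))) ∧
  (Even K → (∀ k ≤ K, (Even k → WUp x h (B - k * h') (v k)) ∧ (Odd k → WLo x h (B - k * h') (v k))) →
    WUp x h' B ((∑ k ∈ range (K + 1), ek (PB h h') k * v k + ek (PB h h') (K + 1)) / V (PB h h')))

/-- **EB** (short, medium). From PA. `ek Q k ≤ sig ^ k / k!` is `Lib.BrunHooley.es_le_pow_div`. For `p ∈ PB s t`,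
`p ≥ exp 40 ≥ 2 ^ 57`, so with `y = 1 / (p - 1) ≤ 2 / 2 ^ 44`: `1 - y ≥ exp (-(y + y ^ 2))` (for `0 ≤ y ≤ 1 / 2`) and
`∑ (y + y ^ 2) = ∑ y (1 + y) ≤ lam (1 + 2 / 2 ^ 44)`. See EBD (Pool/Agent/helper70/SX/EBD.lean). -/
def EB_stmt : Prop := ∀ s t lam : ℝ, 40 ≤ s → s ≤ t → sig s t ≤ lam →
  0 < V (PB s t) ∧ (∀ k : ℕ, 0 ≤ ek (PB s t) k ∧ ek (PB s t) k ≤ lam ^ k / (k.factorial : ℝ)) ∧
    1 / V (PB s t) ≤ Real.exp (lam * (1 + 2 / 2 ^ 44))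

/-- **CK** (short, medium). From EB with `lam = l / 2 ^ 44`. The proof of CKE_stmt (Pool/Agent/helper52/SX/CKE.lean) with
`h0 = 440` (`2 ^ (440 / 10) = 2 ^ 44`). -/
def CK_stmt : Prop := ∀ (l E : ℕ) (s t : ℝ), 40 ≤ s → s ≤ t → sig s t ≤ (l : ℝ) / 2 ^ 44 →
  chkE l 440 E = true → EOK s t E

/-- **ST** (medium). From MB, BS, `Pool.Agent.SX.GOS_stmt`, PA. The proof of WSTT_stmt (Pool/Agent/helper11/SY/WSTT.lean) for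
`n = 601`, `h = a w`, `h' = (a + 1) w`, `B = i w`: lower table: if `2 ^ 40 ≤ dig L' i` use `WLo x h' B 1` and MB.
Otherwise `2 (a + 1) ≤ i` and `go E (a + 1) (dig L' i 2 ^ 44) 10 L U false 0 i 0`; GOS gives an odd `r < 10` with
`(r + 1) (a + 1) ≤ i`. BS with `K = r`, `v k = dig (L or U) (i - k (a + 1)) / 2 ^ 40` (`B - k h' = (i - k (a + 1)) w`; the
index is `≥ a + 1 ≥ a`). Upper table (`a + 1 ≤ i`): the same with `par = true`, `r` even. -/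
def ST_stmt : Prop := ∀ (x w : ℝ) (a L U L' U' E : ℕ), 2 ≤ x → 0 < w → x ≤ a * w → 1 ≤ a →
  EOK (a * w) ((a + 1 : ℕ) * w) E → WTab x w a L U → Pool.Agent.SY.chkLn 601 E (a + 1) L U L' = true →
  Pool.Agent.SY.chkUn 601 E (a + 1) L U U' = true → WTab x w (a + 1) L' U'

/-- **TL** (medium). From MB, BS, EB, PA. The proof of WTLS_stmt (Pool/Agent/helper75/SY/WTLS.lean; the same numerical
inequality). Let `m ≥ 15`, `h' = 2 h`, `B = m h'`. Put `K = m - 1` or `m - 2`, odd for WLo and even for WUp. For `k ≤ K` let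
`j = 2 (m - k) ≥ 2`: `B - k h' = j h`, and both `WLo x h (j h) (600 / 3 ^ j)` and `WUp x h (j h) (600 / 3 ^ j)` hold: by
WTail if `15 ≤ j`, by the hypothesis if `j < 15`. So with `v k = 600 / 9 ^ (m - k)`, `ek ≤ (31/20) ^ k / k!`, `1 / V ≤ 5`
the value of BS is `≤ 5 (600 / 9 ^ m ∑_{k ≤ K} (9 * 31/20) ^ k / k! + (31/20) ^ (K + 1) / (K + 1)!) ≤ 600 / 3 ^ m`. -/
def TL_stmt : Prop := ∀ x h : ℝ, 40 ≤ x → x ≤ h → WTail x h →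
  (∀ j : ℕ, 2 ≤ j → j < 15 → WLo x h (j * h) (600 / 3 ^ j) ∧ WUp x h (j * h) (600 / 3 ^ j)) →
  sig h (2 * h) ≤ 31 / 20 → 1 / 5 ≤ V (PB h (2 * h)) → WTail x (2 * h)

/-- **OC** (short, medium). From MB. (See WCR, Pool/Agent/helper81/SY/WCR.lean.) `i ≤ 300`: the old tables at the index `2 i`
(`(2 i) w = i (2 w)`, `40 w = 20 (2 w)`; for the upper table `40 ≤ 2 i`). `300 < i < 601`: `m = i / 20 ≥ 15`,
`m (40 w) ≤ i (2 w)`, and `600 / 3 ^ m ≤ dig L' i / 2 ^ 40` by the check. -/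
def OC_stmt : Prop := ∀ (x w : ℝ) (L U L' U' : ℕ), 2 ≤ x → 0 < w → WTab x w 40 L U → WTail x (40 * w) →
  chkO 0 L L' = true → chkO 20 U U' = true → WTab x (2 * w) 20 L' U'

/-! ## Part B: primes -/

/-- **SG** (medium). From PA, `Pool.Agent.SX.ABL_stmt`, `Pool.Agent.SX.LPM_stmt`. As in SIG (Pool/Agent/helper19/SX/SIG.lean):
ABL with `F = PB s t`, `x p = log p`, `c p = log p / p`, `G u = 1 / u`, `ζ = s`, `Z = t`, `α = 1`, `κ = 1.09`; the partial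
sums are at most the sum over `pc (exp s) i` (`exp s ≥ 2 ^ 18` as `18 log 2 ≤ 12.48`). So `∑ 1 / p ≤ log (t / s) + 1.09 / s`.
And `∑ (1 / (p - 1) - 1 / p) ≤ ∑_{n ≥ exp s} 1 / (n (n - 1)) ≤ 1 / (exp s - 1) ≤ 0.5 / s`. -/
def SG_stmt : Prop := ∀ s t : ℝ, 13 ≤ s → s ≤ t → sig s t ≤ Real.log (t / s) + 2 / s

/-- **SL** (medium). From PA and `Pool.Agent.helper22.PD.mertens_second` (Pool/Agent/helper22/PD/Mertens2.lean, import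
it; look up its namespace). Let `k = ⌈exp s⌉`, `n = ⌈exp t⌉ - 1`. If `k ≤ n`: the primes of `(k, n]` are in `PB s t`
(`exp s ≤ k < p ≤ n < exp t`) and `1 / p ≤ 1 / (p - 1)`; `log k ≤ log (exp s + 1) ≤ s + exp (-s)`, `log k ≥ s`,
`log n ≥ log (exp t - 1) ≥ t - 2 exp (-t)`; so `log log n - log log k ≥ log t - log s - 4 exp (-s)`, and
`exp (-s) ≤ 1 / s`. If `n < k`: `exp t - 1 < exp s + 1`, `t ≤ s + 2 exp (-s)`, `log (t / s) ≤ 2 exp (-s) / s`, and `sig ≥ 0`.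
(Any `C` is fine.) -/
def SL_stmt : Prop := ∃ C : ℝ, 0 < C ∧ ∀ s t : ℝ, 2 ≤ s → s ≤ t → Real.log (t / s) - C / s ≤ sig s t

/-- **VB** (medium). From PA, SG, SL. (1) With `y = 1 / (p - 1) ≤ 1 / 7`: `1 - y ≥ exp (-(y + y ^ 2))`, and
`∑ y ^ 2 ≤ ∑_{n ≥ 7} 1 / n ^ 2 ≤ 1`; so `V (PB x h) ≥ exp (- sig x h - 1) ≥ exp (- log (h / x) - 1 - 2 / x) ≥ (x / h) / 8`.
(2) `1 - y ≤ exp (-y)`: `V (PB h (32/17 h)) ≤ exp (- log (32/17) + C / h) ≤ (17/32) (1 + ε)`. -/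
def VB_stmt : Prop :=
  (∀ x h : ℝ, 13 ≤ x → x ≤ h → x / (8 * h) ≤ V (PB x h)) ∧
  ∀ ε : ℝ, 0 < ε → ∃ h₀ : ℝ, ∀ h : ℝ, h₀ ≤ h → V (PB h (32 / 17 * h)) ≤ 17 / 32 * (1 + ε)

/-- **CG** (medium). From SG, `Pool.Agent.SX.PCM_stmt` (third and fourth conjunct not needed: `sumR f k n h acc =
k (acc + ∑ j ∈ range n, f (h + j))`). For `u ≥ 0`: `log (1 + u) ≤ u (2 + u) / (2 (1 + u))` (the difference has derivative
`u ^ 2 / (2 (1 + u) ^ 2)`), so with `u = 1 / t`: `log ((t + 1) / t) ≤ (2 t + 1) / (2 t (t + 1))`, and `2 / (t w) ≤ 10 ^ (-7)`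
for `t ≥ 20`, `w ≥ 10 ^ 6`. (1) is then the meaning of `chkB1`. (2): `cdiv a b ≥ a / b`, so
`fT U B t / 2 ^ 40 ≥ (1 + dig U (B - t - 1) / 2 ^ 40) ((2 t + 1) / (2 t (t + 1)) + 10 ^ (-7))`, and the check says
`10000 (2 dig L B + s) + 2 T 2 ^ 40 ≤ 20000 2 ^ 40` for the sum `s`. -/
def CG_stmt : Prop :=
  (∀ (w : ℝ) (t l : ℕ), 10 ^ 6 ≤ w → 20 ≤ t → chkB1 t l = true →
    sig (t * w) ((t + 1 : ℕ) * w) ≤ (l : ℝ) / 2 ^ 44) ∧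
  ∀ (w : ℝ) (T n a B L U : ℕ), 10 ^ 6 ≤ w → 20 ≤ a → chkG T n a B L U = true →
    (T : ℝ) / 10000 ≤ 1 - (dig L B : ℝ) / 2 ^ 40 - 1 / 2 * ∑ t ∈ Ico a (a + n),
      (1 + (dig U (B - t - 1) : ℝ) / 2 ^ 40) * sig (t * w) ((t + 1 : ℕ) * w)

/-! ## Part C: combined weights -/

/-- **CM** (medium, long). From PA. The proof of CMB_stmt (Pool/Agent/helper78/SY/CMB.lean) with `wH = 1`, `b = 2` and blocks
`PB (t w) ((t + 1) w)`, `a ≤ t < Y`: these are disjoint with union `PB (a w) (Y w)`. Take lower weights `c` at the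
index `B` (table L) and, for every `t`, upper weights `c_t` at the index `B - t - 1` (`≥ a` as `t + 1 ≤ Y`, `a + Y ≤ B`). Put
`C F = c F` if `F ⊆ PB x (a w)`; `C F = -(1/2) c_t E` if `F = E ∪ {p}`, `E = F ∩ PB x (a w)`, `p ∈ PB (t w) ((t + 1) w)`;
otherwise `C F = 0`. Level: `∑_E log + log p ≤ (B - t - 1) w + (t + 1) w = B w`. For `Γ ⊆ PB x (Y w)`,
`Γ₀ = Γ ∩ PB x (a w)`: `∑_{F ⊆ Γ} C F = ∑_{E ⊆ Γ₀} c E - (1/2) ∑_{p ∈ Γ \ Γ₀} ∑_{E ⊆ Γ₀} c_(t(p)) E ≤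
[Γ₀ = ∅] (1 - (1/2) |Γ \ Γ₀|)` and `Γ \ Γ₀ = Γ` if `Γ₀ = ∅`. Main term: `∑ C F g F = ∑ c g - (1/2) ∑_t ∑_{p ∈ block t}
(1 / (p - 1)) ∑_E c_t E g E ≥ V (1 - dig L B / 2 ^ 40) - (1/2) ∑_t V (1 + dig U (B - t - 1) / 2 ^ 40) sig (t w) ((t + 1) w)`. -/
def CM_stmt : Prop := ∀ (x w : ℝ) (a Y B L U : ℕ), 2 ≤ x → 0 < w → x ≤ a * w → a < Y → a + Y ≤ B → B < 601 →
  WTab x w a L U → ∃ C : Finset ℕ → ℝ, CW x (a * w) (Y * w) (B * w)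
    (V (PB x (a * w)) * (1 - (dig L B : ℝ) / 2 ^ 40 - 1 / 2 * ∑ t ∈ Ico a Y,
      (1 + (dig U (B - t - 1) : ℝ) / 2 ^ 40) * sig (t * w) ((t + 1 : ℕ) * w))) C

/-- **MN** (medium, long). From PA. Weights on natural numbers. Put `P = PB x H`, `P₀ = P0 x` (primes `≥ 7` below `exp x`;
`log 7 < 2`; disjoint from `P`, and all primes of `P` are `≥ 8`) and, for `m` squarefree and coprime to `30`,
`l m = (-1) ^ |F₀| C F`, `F₀ = primeFactors m ∩ P₀`, `F = primeFactors m \ P₀`; `l m = 0` for other `m`. If `l m ≠ 0` then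
`F ⊆ P`, `m = ∏ F₀ ∏ F ≤ ∏ P₀ exp B`. The `m ∣ a` with `l m ≠ 0` correspond to the pairs `F₀ ⊆ P₀ ∩ Γ`, `F ⊆ P ∩ Γ`,
`Γ = primeFactors a` (`m = ∏ F₀ ∏ F`), and `∑_{F₀} (-1) ^ |F₀| = [P₀ ∩ Γ = ∅]`
(`Finset.sum_powerset_neg_one_pow_card`). Main term: `1 / φ(m) = g F₀ g F`, and
`∑_{F₀ ⊆ P₀} (-1) ^ |F₀| g F₀ = V P₀` (`Finset.prod_one_sub_ordered` or `Finset.prod_add`). -/
def MN_stmt : Prop := ∀ (x H B : ℝ) (C : Finset ℕ → ℝ), 2 ≤ x → x ≤ H → (∀ F, |C F| ≤ 1) →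
  (∀ F, C F ≠ 0 → F ⊆ PB x H ∧ ∑ p ∈ F, Real.log p ≤ B) →
  ∃ l : ℕ → ℝ, (∀ m, |l m| ≤ 1) ∧
    (∀ m, l m ≠ 0 → Squarefree m ∧ Nat.Coprime m 30 ∧ (m : ℝ) ≤ (∏ q ∈ P0 x, (q : ℝ)) * Real.exp B) ∧
    (∀ a : ℕ, 0 < a → (∀ q : ℕ, q.Prime → 7 ≤ q → Real.log q < x → ¬ q ∣ a) →
      ∑ m ∈ a.divisors, l m = ∑ F ∈ ((PB x H).filter fun p => p ∣ a).powerset, C F) ∧
    (∀ a q : ℕ, 0 < a → q.Prime → 7 ≤ q → Real.log q < x → q ∣ a → ∑ m ∈ a.divisors, l m = 0) ∧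
    ∀ M : ℕ, (∏ q ∈ P0 x, (q : ℝ)) * Real.exp B ≤ M →
      ∑ m ∈ Icc 1 M, l m / (Nat.totient m : ℝ) = V (P0 x) * ∑ F ∈ (PB x H).powerset, C F * g F

/-! ## Part D: conclusion (assembly by helper27) -/

open Classical in
/-- **SLV**. The final statement of part S. -/
def SLV_stmt : Prop := ∃ c₀ : ℝ, 0 < c₀ ∧ ∃ N₀ : ℕ, ∀ N : ℕ, N₀ ≤ N → ∃ l1 l2 : ℕ → ℝ,
  (∀ m, |l1 m| ≤ 1 ∧ |l2 m| ≤ 1) ∧
  (∀ m, l1 m ≠ 0 ∨ l2 m ≠ 0 → Squarefree m ∧ Nat.Coprime m 30 ∧ (m : ℝ) ≤ (N : ℝ) ^ (0.992 : ℝ)) ∧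
  (∀ a : ℕ, 0 < a → ∑ m ∈ a.divisors, l1 m ≤
    if (∀ q : ℕ, q.Prime → 7 ≤ q → (q : ℝ) < zS N → ¬ q ∣ a) then
      1 - 1 / 2 * ((a.primeFactors.filter fun q : ℕ => zS N ≤ (q : ℝ) ∧ (q : ℝ) < yS N).card : ℝ) else 0) ∧
  (∀ a : ℕ, 0 < a → (if (∀ q : ℕ, q.Prime → 7 ≤ q → (q : ℝ) < z2 N → ¬ q ∣ a) then (1 : ℝ) else 0) ≤
    ∑ m ∈ a.divisors, l2 m) ∧
  ∀ M : ℕ, (N : ℝ) ^ (0.992 : ℝ) ≤ M →
    c₀ / Real.log N ≤ ∑ m ∈ Icc 1 M, l1 m / (Nat.totient m : ℝ) -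
      1 / 10 * ∑ m ∈ Icc 1 M, l2 m / (Nat.totient m : ℝ)

end Pool.Agent.CHS
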