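import Pool.Agent.helper27.CHS.Spec
import Pool.Agent.helper27.CHS.T

/-! # Project chs: the tables for all octaves (assembly) -/

set_option autoImplicit false
set_option maxRecDepth 100000

open Finset

namespace Pool.Agent.CHS

open Pool.Agent.SX Pool.Agent.SY

/-- lower tables -/
def LT : ℕ → ℕ
  | 0 => L_0
  | 1 => L_1
  | 2 => L_2
  | 3 => L_3
  | 4 => L_4
  | 5 => L_5
  | 6 => L_6
  | 7 => L_7
  | 8 => L_8
  | 9 => L_9
  | 10 => L_10
  | 11 => L_11
  | 12 => L_12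
  | 13 => L_13
  | 14 => L_14
  | 15 => L_15
  | 16 => L_16
  | 17 => L_17
  | 18 => L_18
  | 19 => L_19
  | _ => L_20

/-- upper tables -/
def UT : ℕ → ℕ
  | 0 => U_0
  | 1 => U_1
  | 2 => U_2
  | 3 => U_3
  | 4 => U_4
  | 5 => U_5
  | 6 => U_6
  | 7 => U_7
  | 8 => U_8
  | 9 => U_9
  | 10 => U_10
  | 11 => U_11
  | 12 => U_12
  | 13 => U_13
  | 14 => U_14
  | 15 => U_15
  | 16 => U_16
  | 17 => U_17
  | 18 => U_18
  | 19 => U_19
  | _ => U_20

theorem sLT : ∀ q, q < 20 → chkLn 601 (ET q) (20 + q + 1) (LT q) (UT q) (LT (q + 1)) = true := by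
  intro q hq
  interval_cases q
  · exact sL_1
  · exact sL_2
  · exact sL_3
  · exact sL_4
  · exact sL_5
  · exact sL_6
  · exact sL_7
  · exact sL_8
  · exact sL_9
  · exact sL_10
  · exact sL_11
  · exact sL_12
  · exact sL_13
  · exact sL_14
  · exact sL_15
  · exact sL_16
  · exact sL_17
  · exact sL_18
  · exact sL_19
  · exact sL_20

theorem sUT : ∀ q, q < 20 → chkUn 601 (ET q) (20 + q + 1) (LT q) (UT q) (UT (q + 1)) = true := by
  intro q hq
  interval_cases q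
  · exact sU_1
  · exact sU_2
  · exact sU_3
  · exact sU_4
  · exact sU_5
  · exact sU_6
  · exact sU_7
  · exact sU_8
  · exact sU_9
  · exact sU_10
  · exact sU_11
  · exact sU_12
  · exact sU_13
  · exact sU_14
  · exact sU_15
  · exact sU_16
  · exact sU_17
  · exact sU_18
  · exact sU_19
  · exact sU_20

theorem cLT : ∀ q, q < 20 → chkB1 (20 + q) (lT q) = true ∧ chkE (lT q) 440 (ET q) = true := by
  intro q hq
  interval_cases q
  · exact ⟨cl_0, ce_0⟩
  · exact ⟨cl_1, ce_1⟩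
  · exact ⟨cl_2, ce_2⟩
  · exact ⟨cl_3, ce_3⟩
  · exact ⟨cl_4, ce_4⟩
  · exact ⟨cl_5, ce_5⟩
  · exact ⟨cl_6, ce_6⟩
  · exact ⟨cl_7, ce_7⟩
  · exact ⟨cl_8, ce_8⟩
  · exact ⟨cl_9, ce_9⟩
  · exact ⟨cl_10, ce_10⟩
  · exact ⟨cl_11, ce_11⟩
  · exact ⟨cl_12, ce_12⟩
  · exact ⟨cl_13, ce_13⟩
  · exact ⟨cl_14, ce_14⟩
  · exact ⟨cl_15, ce_15⟩
  · exact ⟨cl_16, ce_16⟩
  · exact ⟨cl_17, ce_17⟩
  · exact ⟨cl_18, ce_18⟩
  · exact ⟨cl_19, ce_19⟩

theorem gS : chkG 788 116 34 198 L_14 U_14 = true := by decide +kernel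

theorem u12 : 10000 * dig U_12 99 ≤ 1767 * 1099511627776 := by decide +kernel

theorem chkS_sound {L : ℕ} (h : chkS L = true) (m : ℕ) (h2 : 2 ≤ m) (h15 : m < 15) :
    ((dig L (20 * m) : ℕ) : ℝ) / 2 ^ 40 ≤ 600 / 3 ^ m := by
  have key : ∀ (n : ℕ) (p : ℕ → Bool), allB n p = true → ∀ i < n, p i = true := by
    intro n p
    induction n with
    | zero => intro _ i hi; omega
    | succ n ih =>
      intro hh i hi
      have hh' : (p n && allB n p) = true := hh
      rw [Bool.and_eq_true] at hh'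
      rcases Nat.lt_succ_iff_lt_or_eq.1 hi with h1 | h1
      · exact ih hh'.2 i h1
      · rw [h1]; exact hh'.1
  have h1 := key 15 _ h m h15
  have h3 : (Nat.blt m 2 || Nat.ble (dig L (20 * m) * 3 ^ m) (600 * 1099511627776)) = true := h1
  rw [Bool.or_eq_true] at h3
  rcases h3 with h3 | h3
  · rw [Nat.blt_eq] at h3
    omega
  · have h4 : dig L (20 * m) * 3 ^ m ≤ 600 * 1099511627776 := Nat.le_of_ble_eq_true h3
    have h5 : ((dig L (20 * m) : ℕ) : ℝ) * 3 ^ m ≤ 600 * 1099511627776 := by exact_mod_cast h4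
    rw [div_le_div_iff₀ (by positivity) (by positivity)]
    norm_num at h5 ⊢
    linarith

/-- the tables for all octaves -/
theorem TBL (hPA : PA_stmt) (hMB : MB_stmt) (hEB : EB_stmt) (hCK : CK_stmt) (hST : ST_stmt)
    (hTL : TL_stmt) (hOC : OC_stmt) (hSG : SG_stmt) (hCG : CG_stmt) (w0 : ℝ) (hw0 : 10 ^ 6 ≤ w0)
    (j : ℕ) : (∀ q, q ≤ 20 → WTab (20 * w0) (2 ^ j * w0) (20 + q) (LT q) (UT q)) ∧
      WTail (20 * w0) (20 * (2 ^ j * w0)) := by
  have hw0' : (0 : ℝ) < w0 := lt_of_lt_of_le (by norm_num) hw0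
  have hx : (2 : ℝ) ≤ 20 * w0 := by nlinarith
  have hx40 : (40 : ℝ) ≤ 20 * w0 := by nlinarith
  -- a row of tables from its first table
  have row : ∀ w : ℝ, w0 ≤ w → WTab (20 * w0) w 20 (LT 0) (UT 0) →
      ∀ q, q ≤ 20 → WTab (20 * w0) w (20 + q) (LT q) (UT q) := by
    intro w hw h0 q
    have hwpos : 0 < w := lt_of_lt_of_le hw0' hw
    induction q with
    | zero => intro _; exact h0
    | succ q ih =>
      intro hq
      have hprev := ih (by omega)
      have hq' : q < 20 := by omega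
      have h20 : (20 : ℝ) ≤ ((20 + q : ℕ) : ℝ) := by push_cast; linarith [Nat.cast_nonneg (α := ℝ) q]
      have hle : 20 * w0 ≤ ((20 + q : ℕ) : ℝ) * w := by
        calc 20 * w0 ≤ 20 * w := by linarith
          _ ≤ _ := mul_le_mul_of_nonneg_right h20 hwpos.le
      have hsig := hCG.1 w (20 + q) (lT q) (hw0.trans hw) (by omega) (cLT q hq').1
      have hst : ((20 + q : ℕ) : ℝ) * w ≤ ((20 + q + 1 : ℕ) : ℝ) * w := by
        refine mul_le_mul_of_nonneg_right ?_ hwpos.le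
        push_cast
        linarith
      have hE := hCK (lT q) (ET q) _ _ (hx40.trans hle) hst hsig (cLT q hq').2
      exact hST (20 * w0) w (20 + q) (LT q) (UT q) (LT (q + 1)) (UT (q + 1)) (ET q) hx hwpos hle
        (by omega) hE hprev (sLT q hq') (sUT q hq')
  -- the tail
  have tail : ∀ w : ℝ, w0 ≤ w → WTab (20 * w0) w 20 (LT 0) (UT 0) → WTail (20 * w0) (20 * w) →
      WTail (20 * w0) (40 * w) := by
    intro w hw h0 ht
    have hwpos : 0 < w := lt_of_lt_of_le hw0' hw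
    have hhx : 20 * w0 ≤ 20 * w := by linarith
    have h40 : (40 : ℝ) ≤ 20 * w := hx40.trans hhx
    have hlog : Real.log 2 ≤ 0.6931471808 := Real.log_two_lt_d9.le
    have hsig : sig (20 * w) (2 * (20 * w)) ≤ 0.75 := by
      have h1 := hSG (20 * w) (2 * (20 * w)) (by linarith) (by linarith)
      have h2 : 2 * (20 * w) / (20 * w) = 2 := by field_simp
      rw [h2] at h1
      have h3 : 2 / (20 * w) ≤ 2 / 40 := div_le_div_of_nonneg_left (by norm_num) (by norm_num) h40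
      linarith
    have hV := hEB (20 * w) (2 * (20 * w)) 0.75 h40 (by linarith) hsig
    have hexp : Real.exp (0.75 * (1 + 2 / 2 ^ 44)) ≤ 5 := by
      calc Real.exp (0.75 * (1 + 2 / 2 ^ 44)) ≤ Real.exp 1 := by
            apply Real.exp_le_exp.2
            norm_num
        _ ≤ 5 := by linarith [Real.exp_one_lt_d9]
    have hV5 : 1 / 5 ≤ V (PB (20 * w) (2 * (20 * w))) := by
      have h1 := hV.2.2.trans hexp
      rw [div_le_iff₀ hV.1] at h1
      linarith
    have h := hTL (20 * w0) (20 * w) hx40 hhx ht (by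
      intro j h2 h15
      have hlev : ((20 * j : ℕ) : ℝ) * w = (j : ℝ) * (20 * w) := by push_cast; ring
      have hbase : ((20 : ℕ) : ℝ) * w = 20 * w := by norm_num
      constructor
      · have h1 := h0.1 (20 * j) (by omega)
        rw [hlev, hbase] at h1
        exact hMB.1 _ _ _ _ _ _ hx le_rfl (chkS_sound tL j h2 h15) h1
      · have h1 := h0.2 (20 * j) (by omega) (by omega)
        rw [hlev, hbase] at h1
        exact hMB.2.1 _ _ _ _ _ _ hx le_rfl (chkS_sound tU j h2 h15) h1) (by linarith) hV5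
    have h2 : 2 * (20 * w) = 40 * w := by ring
    rwa [h2] at h
  induction j with
  | zero =>
    have hb : WTab (20 * w0) w0 20 (LT 0) (UT 0) := by
      have hbase : ((20 : ℕ) : ℝ) * w0 = 20 * w0 := by norm_num
      constructor
      · intro i _
        rw [hbase]
        exact (hMB.2.2.2 (20 * w0) _ _ (by positivity) (by positivity)).1
      · intro i _ _
        rw [hbase]
        exact (hMB.2.2.2 (20 * w0) _ _ (by positivity) (by positivity)).2
    have h1 : (2 : ℝ) ^ 0 * w0 = w0 := by ring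
    rw [h1]
    refine ⟨row w0 le_rfl hb, ?_⟩
    intro m _
    exact ⟨(hMB.2.2.2 (20 * w0) _ _ (by positivity) (by positivity)).1,
      (hMB.2.2.2 (20 * w0) _ _ (by positivity) (by positivity)).2⟩
  | succ j ih =>
    obtain ⟨ih1, ih2⟩ := ih
    have hwj : w0 ≤ 2 ^ j * w0 := by
      have : (1 : ℝ) ≤ 2 ^ j := one_le_pow₀ (by norm_num)
      nlinarith
    have h20 : WTab (20 * w0) (2 ^ j * w0) 20 (LT 0) (UT 0) := ih1 0 (by omega)
    have h40 : WTab (20 * w0) (2 ^ j * w0) 40 (LT 20) (UT 20) := ih1 20 le_rfl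
    have ht := tail _ hwj h20 ih2
    have hnew := hOC (20 * w0) (2 ^ j * w0) (LT 20) (UT 20) (LT 0) (UT 0) hx
      (lt_of_lt_of_le hw0' hwj) h40 ht oL oU
    have h1 : 2 * (2 ^ j * w0) = 2 ^ (j + 1) * w0 := by ring
    rw [h1] at hnew
    have hw1 : w0 ≤ 2 ^ (j + 1) * w0 := by
      have : (1 : ℝ) ≤ 2 ^ (j + 1) := one_le_pow₀ (by norm_num)
      nlinarith
    refine ⟨row _ hw1 hnew, ?_⟩
    have h2 : 20 * (2 ^ (j + 1) * w0) = 40 * (2 ^ j * w0) := by ring
    rw [h2]
    exact ht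

end Pool.Agent.CHS
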