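import Pool.Agent.helper27.CHS.Ker
import Pool.Agent.Lib.BrunHooley

/-!
# Project chs (MP_5628fe_nt, part S of project CH): definitions

Sieve weights of dimension 1 for the primes `p` with `x ≤ log p < h`. All parameters `x`, `h`, `B` are real;
the level is `exp B`. In the application `h = a w`, `B = i w` with natural numbers `a`, `i` and a real unit `w`.
-/

set_option autoImplicit false

open Finset

namespace Pool.Agent.CHS

open Pool.Agent.SX

/-- the primes `p` with `x ≤ log p < y` -/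
noncomputable def PB (x y : ℝ) : Finset ℕ :=
  (range ⌈Real.exp y⌉₊).filter fun p => p.Prime ∧ x ≤ Real.log p ∧ Real.log p < y

/-- `∏ 1 / (p - 1)` -/
noncomputable def g (E : Finset ℕ) : ℝ := ∏ p ∈ E, 1 / ((p : ℝ) - 1)

/-- `∏ (1 - 1 / (p - 1))` -/
noncomputable def V (P : Finset ℕ) : ℝ := ∏ p ∈ P, (1 - 1 / ((p : ℝ) - 1))

/-- elementary symmetric sum of degree `k` of `1 / (p - 1)` over `Q` -/
noncomputable def ek (Q : Finset ℕ) (k : ℕ) : ℝ :=
  Pool.Agent.Lib.BrunHooley.es Q (fun p => 1 / ((p : ℝ) - 1)) k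

/-- `∑ 1 / (p - 1)` over the primes with `x ≤ log p < y` -/
noncomputable def sig (x y : ℝ) : ℝ := ∑ p ∈ PB x y, 1 / ((p : ℝ) - 1)

/-- There are lower bound sieve weights of level `exp B` for the primes of `PB x h`, with main term at least
`V (1 - v)`. -/
def WLo (x h B v : ℝ) : Prop := ∃ c : Finset ℕ → ℝ, (∀ E, |c E| ≤ 1) ∧
  (∀ E, c E ≠ 0 → E ⊆ PB x h ∧ ∑ p ∈ E, Real.log p ≤ B) ∧
  (∀ Γ ⊆ PB x h, ∑ E ∈ Γ.powerset, c E ≤ if Γ = ∅ then 1 else 0) ∧
  V (PB x h) * (1 - v) ≤ ∑ E ∈ (PB x h).powerset, c E * g E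

/-- There are upper bound sieve weights of level `exp B` for the primes of `PB x h`, with main term at most
`V (1 + v)`. -/
def WUp (x h B v : ℝ) : Prop := ∃ c : Finset ℕ → ℝ, (∀ E, |c E| ≤ 1) ∧
  (∀ E, c E ≠ 0 → E ⊆ PB x h ∧ ∑ p ∈ E, Real.log p ≤ B) ∧
  (∀ Γ ⊆ PB x h, (if Γ = ∅ then 1 else 0) ≤ ∑ E ∈ Γ.powerset, c E) ∧
  ∑ E ∈ (PB x h).powerset, c E * g E ≤ V (PB x h) * (1 + v)

/-- the tables `L`, `U` with 601 entries are valid at `h = a w`; the upper table is used from the index `a` on -/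
def WTab (x w : ℝ) (a L U : ℕ) : Prop :=
  (∀ i : ℕ, i < 601 → WLo x (a * w) (i * w) ((dig L i : ℝ) / 2 ^ 40)) ∧
    ∀ i : ℕ, a ≤ i → i < 601 → WUp x (a * w) (i * w) ((dig U i : ℝ) / 2 ^ 40)

/-- exponential bound for the indices beyond the table -/
def WTail (x h : ℝ) : Prop :=
  ∀ m : ℕ, 15 ≤ m → WLo x h (m * h) (600 / 3 ^ m) ∧ WUp x h (m * h) (600 / 3 ^ m)

/-- the digits of `E`, scaled by `2 ^ 44`, bound `e_k / V` for the block of the primes `s ≤ log p < t` -/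
def EOK (s t : ℝ) (E : ℕ) : Prop :=
  ∀ k, k ≤ 10 → ek (PB s t) k / V (PB s t) ≤ (dig E k : ℝ) / 2 ^ 44

/-- `C` are combined weights: level `exp B`, sifting the primes of `PB x h`, weight `1 / 2` for the primes of
`PB x H` outside, main term at least `μ` -/
def CW (x h H B μ : ℝ) (C : Finset ℕ → ℝ) : Prop := (∀ F, |C F| ≤ 1) ∧
  (∀ F, C F ≠ 0 → F ⊆ PB x H ∧ ∑ p ∈ F, Real.log p ≤ B) ∧
  (∀ Γ ⊆ PB x H, ∑ F ∈ Γ.powerset, C F ≤ if Γ ∩ PB x h = ∅ then 1 - 1 / 2 * (Γ.card : ℝ) else 0) ∧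
  μ ≤ ∑ F ∈ (PB x H).powerset, C F * g F

/-- the small primes: the primes `p ≥ 7` with `log p < x` -/
noncomputable def P0 (x : ℝ) : Finset ℕ := PB (Real.log 7) x

/-! ## The parameters of the application -/

/-- the unit `w = log (8 N ^ 3) / 600` -/
noncomputable def uw (N : ℕ) : ℝ := Real.log (8 * (N : ℝ) ^ 3) / 600

/-- `z = (8 N ^ 3) ^ (34 / 600)`, at least `N ^ (1 / 6)` -/
noncomputable def zS (N : ℕ) : ℝ := Real.exp (34 * uw N)

/-- `y = (8 N ^ 3) ^ (1 / 4)` -/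
noncomputable def yS (N : ℕ) : ℝ := Real.exp (150 * uw N)

/-- `z₂ = (8 N ^ 3) ^ (64 / 600)` -/
noncomputable def z2 (N : ℕ) : ℝ := Real.exp (64 * uw N)

end Pool.Agent.CHS
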