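import Pool.Agent.helper27.SY.Ker

/-!
# Project chs (MP_5628fe_nt, sieve of dimension 1): kernel-evaluable functions of the certificate

Tables are natural numbers read in base `2 ^ 48` (`SX.dig`) with 601 entries, sieve tables scaled by `2 ^ 40`,
block data by `2 ^ 44`. One octave: `a` from `20` to `40`, one block for each step. The checks of a block are
`SY.chkLn`, `SY.chkUn` with `n = 601` and `SX.chkE`.
-/

set_option autoImplicit false

namespace Pool.Agent.CHS

open Pool.Agent.SX

/-- passing to the next octave (tables with 601 entries); indices below `m` are not used -/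
def chkO (m L L' : ℕ) : Bool := allB 601 fun i =>
  or (Nat.blt i m) (cond (Nat.ble i 300) (Nat.ble (dig L (2 * i)) (dig L' i))
    (Nat.ble (600 * 1099511627776) (dig L' i * 3 ^ (i / 20))))

/-- `dig L (20 m) ≤ 600 / 3 ^ m` for `2 ≤ m < 15` -/
def chkS (L : ℕ) : Bool := allB 15 fun m =>
  or (Nat.blt m 2) (Nat.ble (dig L (20 * m) * 3 ^ m) (600 * 1099511627776))

/-- `l / 2 ^ 44` bounds `(2 t + 1) / (2 t (t + 1)) + 10 ^ (-7)` -/
def chkB1 (t l : ℕ) : Bool :=
  Nat.ble (17592186044416 * ((2 * t + 1) * 10 ^ 7 + 2 * t * (t + 1))) (l * (2 * t * (t + 1) * 10 ^ 7))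

/-- one term of the final check, scaled by `2 ^ 40` -/
def fT (U B t : ℕ) : ℕ :=
  cdiv ((1099511627776 + dig U (B - t - 1)) * ((2 * t + 1) * 10 ^ 7 + 2 * t * (t + 1)))
    (2 * t * (t + 1) * 10 ^ 7)

/-- the final check for the lower weights: level index `B`, from `a` on, `n` blocks; the result is at least
`T / 10000` -/
def chkG (T n a B L U : ℕ) : Bool :=
  sumR (fT U B) (fun s => Nat.ble (10000 * (2 * dig L B + s) + 2 * T * 1099511627776)
    (20000 * 1099511627776)) n a 0

end Pool.Agent.CHS
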