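import Pool.Agent.helper27.CHS.Asm
import Pool.Agent.helper17.CH.SpecQ

/-! # Project chs: the final statement of part S (assembly) -/

set_option autoImplicit false

open Finset

namespace Pool.Agent.CHS

open Pool.Agent.SX

theorem SLV_V0_pos (x : ℝ) : 0 < V (P0 x) := by
  unfold V P0
  refine Finset.prod_pos fun p hp => ?_
  unfold PB at hp
  rw [Finset.mem_filter] at hp
  have hp7 : (7 : ℝ) ≤ p := by
    have h1 := hp.2.2.1
    have hp0 : (0 : ℝ) < p := by exact_mod_cast hp.2.1.pos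
    exact (Real.log_le_log_iff (by norm_num) hp0).1 h1
  have h2 : 1 / ((p : ℝ) - 1) ≤ 1 / 6 := div_le_div_of_nonneg_left (by norm_num) (by norm_num) (by linarith)
  linarith

/-- an upper sieve has a nonnegative main term -/
theorem SLV_nonneg (P : Finset ℕ) : ∀ c : Finset ℕ → ℝ,
    (∀ p ∈ P, 0 ≤ 1 / ((p : ℝ) - 1) ∧ 1 / ((p : ℝ) - 1) ≤ 1) →
    (∀ Γ ⊆ P, 0 ≤ ∑ E ∈ Γ.powerset, c E) → 0 ≤ ∑ E ∈ P.powerset, c E * g E := by
  induction P using Finset.induction_on with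
  | empty =>
    intro c _ h
    have := h ∅ (Finset.Subset.refl _)
    simpa [g] using this
  | insert a s ha ih =>
    intro c hp h
    have h1 := ih (fun E => c E + 1 / ((a : ℝ) - 1) * c (insert a E))
      (fun p hps => hp p (Finset.mem_insert_of_mem hps)) ?_
    · rw [Finset.sum_powerset_insert ha]
      rw [← Finset.sum_add_distrib]
      refine h1.trans (le_of_eq ?_)
      refine Finset.sum_congr rfl fun E hE => ?_
      have haE : a ∉ E := fun hh => ha (Finset.mem_powerset.1 hE hh)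
      have h2 : g (insert a E) = 1 / ((a : ℝ) - 1) * g E := by
        unfold g
        rw [Finset.prod_insert haE]
      rw [h2]
      ring
    · intro Γ hΓ
      have haΓ : a ∉ Γ := fun hh => ha (hΓ hh)
      have h3 := h Γ (hΓ.trans (Finset.subset_insert _ _))
      have h4 := h (insert a Γ) (Finset.insert_subset_insert _ hΓ)
      rw [Finset.sum_powerset_insert haΓ] at h4
      rw [Finset.sum_add_distrib, ← Finset.mul_sum]
      obtain ⟨h5, h6⟩ := hp a (Finset.mem_insert_self _ _)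
      nlinarith

/-- dyadic decomposition of the unit -/
theorem SLV_dy (W : ℝ) (hW : 10 ^ 6 ≤ W) :
    ∃ (J : ℕ) (w0 : ℝ), 10 ^ 6 ≤ w0 ∧ w0 ≤ 2 * 10 ^ 6 ∧ 2 ^ J * w0 = W ∧ w0 ≤ W := by
  obtain ⟨J, h1, h2⟩ := exists_nat_pow_near (x := W / 10 ^ 6) (y := 2)
    (by rw [le_div_iff₀ (by norm_num)]; linarith) (by norm_num)
  have hp : (0 : ℝ) < 2 ^ J := by positivity
  refine ⟨J, W / 2 ^ J, ?_, ?_, ?_, ?_⟩
  · rw [le_div_iff₀ hp]
    rw [le_div_iff₀ (by norm_num)] at h1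
    linarith
  · rw [div_le_iff₀ hp]
    rw [div_lt_iff₀ (by norm_num), pow_succ] at h2
    linarith
  · field_simp
  · have : (1 : ℝ) ≤ 2 ^ J := one_le_pow₀ (by norm_num)
    have hW0 : (0 : ℝ) ≤ W := le_trans (by norm_num) hW
    exact div_le_self hW0 this

/-- the lower weights for one unit -/
theorem SLV_one (hPA : PA_stmt) (hVB : VB_stmt) (hCM : CM_stmt) (hCG : CG_stmt) (hMN : MN_stmt)
    (hT : ∀ (w0 : ℝ), 10 ^ 6 ≤ w0 → ∀ j q : ℕ, q ≤ 20 →
      WTab (20 * w0) (2 ^ j * w0) (20 + q) (LT q) (UT q)) :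
    ∃ h₀ : ℝ, ∀ W : ℝ, h₀ ≤ W → 10 ^ 6 ≤ W → ∃ l1 l2 : ℕ → ℝ,
      (∀ m, |l1 m| ≤ 1 ∧ |l2 m| ≤ 1) ∧
      (∀ m, l1 m ≠ 0 ∨ l2 m ≠ 0 → Squarefree m ∧ Nat.Coprime m 30 ∧
        (m : ℝ) ≤ (∏ q ∈ P0 (4 * 10 ^ 7), (q : ℝ)) * Real.exp (198 * W)) ∧
      (∀ a : ℕ, 0 < a →
        ((∀ q : ℕ, q.Prime → 7 ≤ q → Real.log q < 34 * W → ¬ q ∣ a) →
          ∑ m ∈ a.divisors, l1 m ≤ 1 - 1 / 2 *
            (((PB (34 * W) (150 * W)).filter fun p => p ∣ a).card : ℝ)) ∧
        ((∃ q : ℕ, q.Prime ∧ 7 ≤ q ∧ Real.log q < 34 * W ∧ q ∣ a) →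
          ∑ m ∈ a.divisors, l1 m ≤ 0)) ∧
      (∀ a : ℕ, 0 < a → 0 ≤ ∑ m ∈ a.divisors, l2 m ∧
        ((∀ q : ℕ, q.Prime → 7 ≤ q → Real.log q < 64 * W → ¬ q ∣ a) →
          1 ≤ ∑ m ∈ a.divisors, l2 m)) ∧
      ∀ M : ℕ, (∏ q ∈ P0 (4 * 10 ^ 7), (q : ℝ)) * Real.exp (198 * W) ≤ M →
        0 ≤ ∑ m ∈ Icc 1 M, l2 m / (Nat.totient m : ℝ) ∧
        V (P0 (4 * 10 ^ 7)) * (1000 / W) ≤
          ∑ m ∈ Icc 1 M, l1 m / (Nat.totient m : ℝ) -
            1 / 10 * ∑ m ∈ Icc 1 M, l2 m / (Nat.totient m : ℝ) := by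
  obtain ⟨h₀, hh₀⟩ := hVB.2 (1 / 1000) (by norm_num)
  refine ⟨h₀, ?_⟩
  intro W hWh hW6
  obtain ⟨J, w0, h1, h2, h3, h4⟩ := SLV_dy W hW6
  have hWpos : 0 < W := lt_of_lt_of_le (by norm_num) hW6
  have hw0pos : 0 < w0 := lt_of_lt_of_le (by norm_num) h1
  set x : ℝ := 20 * w0 with hx
  have hx2 : 2 ≤ x := by rw [hx]; nlinarith
  have hx13 : 13 ≤ x := by rw [hx]; nlinarith
  have hxlo : 2 * 10 ^ 7 ≤ x := by rw [hx]; nlinarith
  have hxhi : x ≤ 4 * 10 ^ 7 := by rw [hx]; nlinarith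
  have hxW : x ≤ 34 * W := by rw [hx]; nlinarith
  have hT1 : WTab x W 34 L_14 U_14 := by
    have h := hT w0 h1 J 14 (by norm_num)
    rw [h3] at h
    exact h
  have hT2 : WTab x (2 * W) 32 L_12 U_12 := by
    have h := hT w0 h1 (J + 1) 12 (by norm_num)
    have h5 : 2 ^ (J + 1) * w0 = 2 * W := by rw [← h3]; ring
    rw [h5] at h
    exact h
  -- small primes
  have hlog7 : Real.log 7 ≤ x := by
    have : Real.log 7 ≤ 7 - 1 := Real.log_le_sub_one_of_pos (by norm_num)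
    linarith
  obtain ⟨hu, hd, hv, -⟩ := hPA.2.1 (Real.log 7) x (4 * 10 ^ 7) hlog7 hxhi
  have hP0V : V (P0 (4 * 10 ^ 7)) ≤ V (P0 x) := by
    have h5 : V (P0 (4 * 10 ^ 7)) = V (P0 x) * V (PB x (4 * 10 ^ 7)) := hv
    rw [h5]
    have h6 := (hPA.2.2.1 x (4 * 10 ^ 7) hx2).2.1
    have h7 := SLV_V0_pos x
    nlinarith
  have hP0K : (∏ q ∈ P0 x, (q : ℝ)) ≤ ∏ q ∈ P0 (4 * 10 ^ 7), (q : ℝ) := by
    have h5 : P0 (4 * 10 ^ 7) = P0 x ∪ PB x (4 * 10 ^ 7) := hu
    rw [h5, Finset.prod_union (show Disjoint (P0 x) (PB x (4 * 10 ^ 7)) from hd)]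
    have h6 : (1 : ℝ) ≤ ∏ q ∈ PB x (4 * 10 ^ 7), (q : ℝ) := by
      have : ∀ s : Finset ℕ, (∀ q ∈ s, 8 ≤ q) → (1 : ℝ) ≤ ∏ q ∈ s, (q : ℝ) := by
        intro s
        induction s using Finset.induction_on with
        | empty => intro _; simp
        | insert a s ha ih =>
          intro hs
          rw [Finset.prod_insert ha]
          have h7 := ih fun q hq => hs q (Finset.mem_insert_of_mem hq)
          have h8 : (8 : ℝ) ≤ a := by exact_mod_cast hs a (Finset.mem_insert_self a s)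
          nlinarith
      exact this _ fun q hq => ((hPA.2.2.1 x (4 * 10 ^ 7) hx2).2.2.2 q hq).1
    have h7 : (0 : ℝ) ≤ ∏ q ∈ P0 x, (q : ℝ) := Finset.prod_nonneg fun q _ => Nat.cast_nonneg q
    exact le_mul_of_one_le_right h7 h6
  -- the lower weights
  obtain ⟨C1, hC1a, hC1b, hC1c, hC1d⟩ := hCM x W 34 150 198 L_14 U_14 hx2 hWpos
    (by push_cast; exact hxW) (by norm_num) (by norm_num) (by norm_num) hT1
  have hG := hCG.2 W 788 116 34 198 L_14 U_14 hW6 (by norm_num) gS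
  have hVpos := (hPA.2.2.1 x (34 * W) hx2).1
  push_cast at hC1b hC1c hC1d hG
  have hmain1 : V (PB x (34 * W)) * (788 / 10000) ≤ ∑ F ∈ (PB x (150 * W)).powerset, C1 F * g F :=
    (mul_le_mul_of_nonneg_left hG hVpos.le).trans hC1d
  -- the upper weights
  have hU := hT2.2 99 (by norm_num) (by norm_num)
  have e64 : ((32 : ℕ) : ℝ) * (2 * W) = 64 * W := by push_cast; ring
  have e198 : ((99 : ℕ) : ℝ) * (2 * W) = 198 * W := by push_cast; ring
  rw [e64, e198] at hU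
  obtain ⟨c2, hc2a, hc2b, hc2c, hc2d⟩ := hU
  have hV64 : V (PB x (64 * W)) ≤ V (PB x (34 * W)) * (17 / 32 * (1 + 1 / 1000)) := by
    obtain ⟨-, -, h5, -⟩ := hPA.2.1 x (34 * W) (64 * W) hxW (by linarith)
    rw [h5]
    refine mul_le_mul_of_nonneg_left ?_ hVpos.le
    have h6 := hh₀ (34 * W) (by linarith)
    have h7 : 32 / 17 * (34 * W) = 64 * W := by ring
    rwa [h7] at h6
  have hmain2 : ∑ F ∈ (PB x (64 * W)).powerset, c2 F * g F ≤ V (PB x (34 * W)) * (626 / 1000) := by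
    refine hc2d.trans ?_
    have h5 : (dig U_12 99 : ℝ) / 2 ^ 40 ≤ 1767 / 10000 := by
      rw [div_le_div_iff₀ (by norm_num) (by norm_num)]
      have := u12
      have h6 : (10000 : ℝ) * (dig U_12 99 : ℝ) ≤ 1767 * 1099511627776 := by exact_mod_cast this
      norm_num
      linarith
    have h6 : (0 : ℝ) ≤ (dig U_12 99 : ℝ) / 2 ^ 40 := by positivity
    have h7 := (hPA.2.2.1 x (64 * W) hx2).1
    calc V (PB x (64 * W)) * (1 + (dig U_12 99 : ℝ) / 2 ^ 40)
        ≤ V (PB x (64 * W)) * (1 + 1767 / 10000) := by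
          refine mul_le_mul_of_nonneg_left (by linarith) h7.le
      _ ≤ V (PB x (34 * W)) * (17 / 32 * (1 + 1 / 1000)) * (1 + 1767 / 10000) :=
          mul_le_mul_of_nonneg_right hV64 (by norm_num)
      _ ≤ V (PB x (34 * W)) * (626 / 1000) := by
          rw [mul_assoc]
          refine mul_le_mul_of_nonneg_left ?_ hVpos.le
          norm_num
  -- arithmetic functions
  obtain ⟨l1, hl1a, hl1b, hl1c, hl1d, hl1e⟩ := hMN x (150 * W) (198 * W) C1 hx2
    (by linarith) hC1a hC1b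
  obtain ⟨l2, hl2a, hl2b, hl2c, hl2d, hl2e⟩ := hMN x (64 * W) (198 * W) c2 hx2
    (by linarith) hc2a hc2b
  have hexp : 0 < Real.exp (198 * W) := Real.exp_pos _
  refine ⟨l1, l2, fun m => ⟨hl1a m, hl2a m⟩, ?_, ?_, ?_, ?_⟩
  · intro m hm
    rcases hm with hm | hm
    · obtain ⟨a1, a2, a3⟩ := hl1b m hm
      exact ⟨a1, a2, a3.trans (mul_le_mul_of_nonneg_right hP0K hexp.le)⟩
    · obtain ⟨a1, a2, a3⟩ := hl2b m hm
      exact ⟨a1, a2, a3.trans (mul_le_mul_of_nonneg_right hP0K hexp.le)⟩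
  · intro a ha
    constructor
    · intro hr
      rw [hl1c a ha fun q hq h7 hqx => hr q hq h7 (lt_of_lt_of_le hqx hxW)]
      have hsub : (PB x (150 * W)).filter (fun p => p ∣ a) ⊆ PB x (150 * W) := Finset.filter_subset _ _
      have h5 := hC1c _ hsub
      have h6 : (PB x (150 * W)).filter (fun p => p ∣ a) ∩ PB x (34 * W) = ∅ := by
        rw [Finset.eq_empty_iff_forall_notMem]
        intro p hp
        rw [Finset.mem_inter, Finset.mem_filter] at hp
        have h7 := (hPA.1 x (34 * W) p).1 hp.2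
        have h8 := ((hPA.2.2.1 x (34 * W) hx2).2.2.2 p hp.2).1
        exact hr p h7.1 (by omega) h7.2.2 hp.1.2
      rw [if_pos h6] at h5
      have h7 : (PB x (150 * W)).filter (fun p => p ∣ a) =
          (PB (34 * W) (150 * W)).filter (fun p => p ∣ a) := by
        ext p
        rw [Finset.mem_filter, Finset.mem_filter, hPA.1, hPA.1]
        constructor
        · rintro ⟨⟨b1, b2, b3⟩, b4⟩
          refine ⟨⟨b1, ?_, b3⟩, b4⟩
          by_contra hlt
          have b5 : p ∈ PB x (34 * W) := (hPA.1 x (34 * W) p).2 ⟨b1, b2, not_le.1 hlt⟩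
          have b6 := ((hPA.2.2.1 x (34 * W) hx2).2.2.2 p b5).1
          exact hr p b1 (by omega) (not_le.1 hlt) b4
        · rintro ⟨⟨b1, b2, b3⟩, b4⟩
          exact ⟨⟨b1, hxW.trans b2, b3⟩, b4⟩
      rw [h7] at h5 ⊢
      exact h5
    · rintro ⟨q, hq, h7, hqz, hqa⟩
      by_cases hs : ∃ q' : ℕ, q'.Prime ∧ 7 ≤ q' ∧ Real.log q' < x ∧ q' ∣ a
      · obtain ⟨q', b1, b2, b3, b4⟩ := hs
        rw [hl1d a q' ha b1 b2 b3 b4]
      · have hs' : ∀ q' : ℕ, q'.Prime → 7 ≤ q' → Real.log q' < x → ¬ q' ∣ a := by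
          intro q' b1 b2 b3 b4
          exact hs ⟨q', b1, b2, b3, b4⟩
        rw [hl1c a ha hs']
        have hsub : (PB x (150 * W)).filter (fun p => p ∣ a) ⊆ PB x (150 * W) :=
          Finset.filter_subset _ _
        have h5 := hC1c _ hsub
        have hqx : x ≤ Real.log q := by
          by_contra hlt
          exact hs' q hq h7 (not_le.1 hlt) hqa
        have h6 : (PB x (150 * W)).filter (fun p => p ∣ a) ∩ PB x (34 * W) ≠ ∅ := by
          apply Finset.Nonempty.ne_empty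
          refine ⟨q, ?_⟩
          rw [Finset.mem_inter, Finset.mem_filter, hPA.1, hPA.1]
          exact ⟨⟨⟨hq, hqx, by linarith⟩, hqa⟩, hq, hqx, hqz⟩
        rw [if_neg h6] at h5
        exact h5
  · intro a ha
    by_cases hs : ∃ q' : ℕ, q'.Prime ∧ 7 ≤ q' ∧ Real.log q' < x ∧ q' ∣ a
    · obtain ⟨q', b1, b2, b3, b4⟩ := hs
      rw [hl2d a q' ha b1 b2 b3 b4]
      refine ⟨le_rfl, fun hr => ?_⟩
      exact absurd b4 (hr q' b1 b2 (by linarith))
    · have hs' : ∀ q' : ℕ, q'.Prime → 7 ≤ q' → Real.log q' < x → ¬ q' ∣ a := by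
        intro q' b1 b2 b3 b4
        exact hs ⟨q', b1, b2, b3, b4⟩
      rw [hl2c a ha hs']
      have hsub : (PB x (64 * W)).filter (fun p => p ∣ a) ⊆ PB x (64 * W) :=
        Finset.filter_subset _ _
      have h5 := hc2c _ hsub
      refine ⟨?_, fun hr => ?_⟩
      · refine le_trans ?_ h5
        split_ifs <;> norm_num
      · have h6 : (PB x (64 * W)).filter (fun p => p ∣ a) = ∅ := by
          rw [Finset.eq_empty_iff_forall_notMem]
          intro p hp
          rw [Finset.mem_filter] at hp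
          have h7 := (hPA.1 x (64 * W) p).1 hp.1
          have h8 := ((hPA.2.2.1 x (64 * W) hx2).2.2.2 p hp.1).1
          exact hr p h7.1 (by omega) h7.2.2 hp.2
        rw [if_pos h6] at h5
        exact h5
  · intro M hM
    have hM' : (∏ q ∈ P0 x, (q : ℝ)) * Real.exp (198 * W) ≤ M :=
      (mul_le_mul_of_nonneg_right hP0K hexp.le).trans hM
    rw [hl1e M hM', hl2e M hM']
    have hVx := SLV_V0_pos x
    have hnn : 0 ≤ ∑ F ∈ (PB x (64 * W)).powerset, c2 F * g F := by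
      apply SLV_nonneg
      · intro p hp
        obtain ⟨-, h5, h6⟩ := (hPA.2.2.1 x (64 * W) hx2).2.2.2 p hp
        exact ⟨h5.le, h6.trans (by norm_num)⟩
      · intro Γ hΓ
        refine le_trans ?_ (hc2c Γ hΓ)
        split_ifs <;> norm_num
    refine ⟨mul_nonneg hVx.le hnn, ?_⟩
    have hV0 := SLV_V0_pos (4 * 10 ^ 7)
    have hlow := hVB.1 x (34 * W) hx13 hxW
    have h5 : V (PB x (34 * W)) * (162 / 10000) ≤ ∑ F ∈ (PB x (150 * W)).powerset, C1 F * g F -
        1 / 10 * ∑ F ∈ (PB x (64 * W)).powerset, c2 F * g F := by linarith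
    have h6 : 1000 / W ≤ V (PB x (34 * W)) * (162 / 10000) := by
      have h7 : 2 * 10 ^ 7 / (8 * (34 * W)) ≤ V (PB x (34 * W)) :=
        (div_le_div_of_nonneg_right hxlo (by positivity)).trans hlow
      calc 1000 / W ≤ 2 * 10 ^ 7 / (8 * (34 * W)) * (162 / 10000) := by
            rw [div_mul_div_comm, div_le_div_iff₀ hWpos (by positivity)]
            nlinarith
        _ ≤ _ := mul_le_mul_of_nonneg_right h7 (by norm_num)
    calc V (P0 (4 * 10 ^ 7)) * (1000 / W) ≤ V (P0 x) * (V (PB x (34 * W)) * (162 / 10000)) :=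
          mul_le_mul hP0V h6 (by positivity) hVx.le
      _ ≤ V (P0 x) * (∑ F ∈ (PB x (150 * W)).powerset, C1 F * g F -
            1 / 10 * ∑ F ∈ (PB x (64 * W)).powerset, c2 F * g F) :=
          mul_le_mul_of_nonneg_left h5 hVx.le
      _ = _ := by ring

/-- the final statement -/
theorem SLV (hPA : PA_stmt) (hVB : VB_stmt) (hCM : CM_stmt) (hCG : CG_stmt) (hMN : MN_stmt)
    (hT : ∀ (w0 : ℝ), 10 ^ 6 ≤ w0 → ∀ j q : ℕ, q ≤ 20 →
      WTab (20 * w0) (2 ^ j * w0) (20 + q) (LT q) (UT q)) : Pool.Agent.CH.SLV_stmt := by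
  obtain ⟨h₀, hh₀⟩ := SLV_one hPA hVB hCM hCG hMN hT
  set K : ℝ := ∏ q ∈ P0 (4 * 10 ^ 7), (q : ℝ) with hK
  have hK1 : 1 ≤ K := by
    have : ∀ s : Finset ℕ, (∀ q ∈ s, 1 ≤ q) → (1 : ℝ) ≤ ∏ q ∈ s, (q : ℝ) := by
      intro s
      induction s using Finset.induction_on with
      | empty => intro _; simp
      | insert a s ha ih =>
        intro hs
        rw [Finset.prod_insert ha]
        have h7 := ih fun q hq => hs q (Finset.mem_insert_of_mem hq)
        have h8 : (1 : ℝ) ≤ a := by exact_mod_cast hs a (Finset.mem_insert_self a s)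
        nlinarith
    refine this _ fun q hq => ?_
    unfold P0 PB at hq
    rw [Finset.mem_filter] at hq
    exact hq.2.1.one_lt.le
  have hK0 : 0 < K := lt_of_lt_of_le one_pos hK1
  have hV0 := SLV_V0_pos (4 * 10 ^ 7)
  -- the constant for the size of N
  set T : ℝ := max (max (1000 * (Real.log K + 1)) (2 * 10 ^ 8)) (200 * h₀) with hTdef
  refine ⟨V (P0 (4 * 10 ^ 7)), ⌈Real.exp T⌉₊, hV0, ?_⟩
  intro N hN
  have hNexp : Real.exp T ≤ N := Nat.ceil_le.1 hN
  have hNpos : (0 : ℝ) < N := lt_of_lt_of_le (Real.exp_pos _) hNexp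
  have hlogN : T ≤ Real.log N := by
    rw [Real.le_log_iff_exp_le hNpos]
    exact hNexp
  have hl1 : 1000 * (Real.log K + 1) ≤ Real.log N := ((le_max_left _ _).trans (le_max_left _ _)).trans hlogN
  have hl2 : 2 * 10 ^ 8 ≤ Real.log N := ((le_max_right _ _).trans (le_max_left _ _)).trans hlogN
  have hl3 : 200 * h₀ ≤ Real.log N := (le_max_right _ _).trans hlogN
  have hlog8 : Real.log 8 = 3 * Real.log 2 := by
    rw [show (8 : ℝ) = 2 ^ 3 by norm_num, Real.log_pow]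
    norm_num
  have hlog8a : 0 ≤ Real.log 8 := Real.log_nonneg (by norm_num)
  have hlog8b : Real.log 8 ≤ 2.1 := by
    rw [hlog8]
    linarith [Real.log_two_lt_d9]
  have huw : 600 * uw N = Real.log 8 + 3 * Real.log N := by
    unfold uw
    rw [Real.log_mul (by norm_num) (by positivity), Real.log_pow]
    push_cast
    ring
  set W := uw N with hW
  have hW6 : 10 ^ 6 ≤ W := by linarith
  have hWh : h₀ ≤ W := by linarith
  have hWpos : 0 < W := lt_of_lt_of_le (by norm_num) hW6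
  obtain ⟨l1, l2, c1, c2, c3, c4, c5⟩ := hh₀ W hWh hW6
  have hlevel1 : K * Real.exp (198 * W) + 1 ≤ (N : ℝ) ^ (124 / 125 : ℝ) := by
    rw [Real.rpow_def_of_pos hNpos]
    have h1 : K = Real.exp (Real.log K) := (Real.exp_log hK0).symm
    rw [h1, ← Real.exp_add]
    have h2 : 198 * W = 0.33 * Real.log 8 + 0.99 * Real.log N := by linarith
    rw [h2]
    have h3 : Real.log K + (0.33 * Real.log 8 + 0.99 * Real.log N) + 1 ≤ Real.log N * (124 / 125) := by
      linarith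
    have h4 : 1 ≤ Real.exp (Real.log K + (0.33 * Real.log 8 + 0.99 * Real.log N)) := by
      apply Real.one_le_exp
      have := Real.log_nonneg hK1
      linarith
    have h5 : Real.exp (Real.log K + (0.33 * Real.log 8 + 0.99 * Real.log N)) * 2 ≤
        Real.exp (Real.log K + (0.33 * Real.log 8 + 0.99 * Real.log N)) * Real.exp 1 :=
      mul_le_mul_of_nonneg_left (by have := Real.add_one_le_exp (1 : ℝ); linarith) (Real.exp_pos _).le
    rw [← Real.exp_add] at h5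
    have h6 := Real.exp_le_exp.2 h3
    linarith
  have hlevel : K * Real.exp (198 * W) ≤ (N : ℝ) ^ (124 / 125 : ℝ) := by linarith
  have hfloor : K * Real.exp (198 * W) ≤ (⌊(N : ℝ) ^ (124 / 125 : ℝ)⌋₊ : ℝ) := by
    have := Nat.lt_floor_add_one ((N : ℝ) ^ (124 / 125 : ℝ))
    linarith
  have hz : ∀ (q : ℕ) (t : ℝ), q.Prime → ((q : ℝ) < Real.exp (t * W) ↔ Real.log q < t * W) := by
    intro q t hq
    have hq0 : (0 : ℝ) < q := by exact_mod_cast hq.pos
    rw [← Real.log_lt_iff_lt_exp hq0]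
  have hbase : (0 : ℝ) < 8 * (N : ℝ) ^ 3 := by positivity
  have hzS : Pool.Agent.CH.zS N = Real.exp (34 * W) := by
    unfold Pool.Agent.CH.zS
    rw [Real.rpow_def_of_pos hbase, hW]
    unfold uw
    congr 1
    ring
  have hyS : Pool.Agent.CH.yS N = Real.exp (150 * W) := by
    unfold Pool.Agent.CH.yS
    rw [Real.rpow_def_of_pos hbase, hW]
    unfold uw
    congr 1
    ring
  have hz2 : Pool.Agent.CH.z2 N = Real.exp (64 * W) := by
    unfold Pool.Agent.CH.z2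
    rw [Real.rpow_def_of_pos hbase, hW]
    unfold uw
    congr 1
    ring
  rw [hzS, hyS, hz2]
  obtain ⟨c5a, c5b⟩ := c5 ⌊(N : ℝ) ^ (124 / 125 : ℝ)⌋₊ hfloor
  refine ⟨l1, l2, c1, ?_, ?_, ?_, c5a, ?_⟩
  · intro m hm
    obtain ⟨a1, a2, a3⟩ := c2 m hm
    exact ⟨a1, a2, a3.trans hlevel⟩
  · intro a ha
    obtain ⟨d1, d2⟩ := c3 a ha
    split_ifs with hr
    swap
    · have h1 := d1 fun q hq h7 hqz hqa => hr ⟨q, hq, hqa, h7, (hz q 34 hq).2 hqz⟩
      refine h1.trans (le_of_eq ?_)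
      have h2 : (PB (34 * W) (150 * W)).filter (fun p => p ∣ a) =
          a.primeFactors.filter fun q : ℕ => Real.exp (34 * W) ≤ (q : ℝ) ∧ (q : ℝ) < Real.exp (150 * W) := by
        ext p
        rw [Finset.mem_filter, Finset.mem_filter, hPA.1, Nat.mem_primeFactors]
        constructor
        · rintro ⟨⟨b1, b2, b3⟩, b4⟩
          refine ⟨⟨b1, b4, (Nat.pos_iff_ne_zero.1 ha)⟩, ?_, (hz p 150 b1).2 b3⟩
          by_contra hlt
          exact absurd ((hz p 34 b1).1 (not_le.1 hlt)) (not_lt.2 b2)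
        · rintro ⟨⟨b1, b4, -⟩, b2, b3⟩
          refine ⟨⟨b1, ?_, (hz p 150 b1).1 b3⟩, b4⟩
          by_contra hlt
          exact absurd ((hz p 34 b1).2 (not_le.1 hlt)) (not_lt.2 b2)
      rw [h2]
    · obtain ⟨q, hq, hqa, h7, hqz⟩ := hr
      exact d2 ⟨q, hq, h7, (hz q 34 hq).1 hqz, hqa⟩
  · intro a ha
    obtain ⟨d1, d2⟩ := c4 a ha
    split_ifs with hr
    · exact d1
    · exact d2 fun q hq h7 hqz hqa => hr ⟨q, hq, hqa, h7, (hz q 64 hq).2 hqz⟩
  · refine le_trans ?_ c5b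
    have hlogpos : 0 < Real.log N := by linarith
    rw [div_eq_mul_one_div]
    refine mul_le_mul_of_nonneg_left ?_ hV0.le
    rw [div_le_div_iff₀ hlogpos hWpos]
    linarith

end Pool.Agent.CHS
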